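import Pool.Agent.Q283.FG.Stm1
import Pool.Agent.Q265.LK.Bas2

/-!
# Project FG (helper283), job BSE: the bases, for the Hilbert symbols
-/

set_option autoImplicit false

namespace Pool.Agent.Q121.FG

open NumberField IsDedekindDomain Filter Topology Finset
open Pool.Agent.Q283.LQ (Sm Box Nest nS)
open Pool.Agent.Q7.LK
open Pool.Agent.Q265.LK
open Pool.Agent.Q283.FG

theorem z2_one {x : ZMod 2} (h : x ≠ 0) : x = 1 := by
  revert x
  decide

theorem z2_add (x : ZMod 2) : x + x = 0 := by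
  revert x
  decide

section

variable {F : Type} [Field F] [NumberField F]

instance fin_real : Finite (F →+* ℝ) := by
  refine Finite.of_injective (fun φ : F →+* ℝ => Complex.ofRealHom.comp φ) fun φ ψ h => ?_
  ext x
  have h1 := RingHom.congr_fun h x
  exact Complex.ofReal_injective h1

/-! ## translations -/

theorem od_iff (v : HeightOneSpectrum (𝓞 F)) {a : F} (ha : a ≠ 0) :
    Pool.Agent.Q283.LQ.Od v a ↔ vl 2 v a ≠ 0 := by
  have hv : v.valuation F a ≠ 0 := (Valuation.ne_zero_iff _).2 ha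
  have h2 : (2 : ZMod 2) = 0 := rfl
  constructor
  · rintro ⟨n, hn⟩
    unfold vl
    rw [hn, WithZero.log_exp]
    push_cast
    rw [h2, zero_mul, zero_add]
    decide
  · intro h
    obtain ⟨k, hk | hk⟩ := Int.even_or_odd' (WithZero.log (v.valuation F a))
    · exfalso
      apply h
      unfold vl
      rw [hk]
      push_cast
      rw [h2, zero_mul, neg_zero]
    · exact ⟨k, by rw [← hk, WithZero.exp_log hv]⟩

theorem lsq_iff (v : HeightOneSpectrum (𝓞 F)) (a : F) : Pool.Agent.Q283.LQ.Lsq v a ↔ Lpw 2 v a := Iff.rfl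

theorem nn_iff (y : ℕ) (b : F) : Pool.Agent.Q283.LQ.Nn y b ↔ Nr y b :=
  ⟨fun h => ⟨⟨h.1, h.2.1⟩, h.2.2⟩, fun h => ⟨h.1.1, h.1.2, h.2⟩⟩

omit [NumberField F] in
theorem mon_eq {f : ℕ} (u : Fin f → F) (c : Fin f → ZMod 2) : Pool.Agent.Q283.LQ.mon u c = mon u c := rfl

omit [NumberField F] in
theorem pow_iff (a : F) : IsSquare a ↔ IsPow 2 a := by
  constructor
  · rintro ⟨x, hx⟩
    exact ⟨x, by rw [hx, sq]⟩
  · rintro ⟨x, hx⟩
    exact ⟨x, by rw [hx, sq]⟩

theorem sb_eq (hB : S_BAS) {ζ : F} (hζ : IsPrimitiveRoot ζ 2) {v : HeightOneSpectrum (𝓞 F)} (hv : ¬ Dp 2 v)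
    {a : F} (ha : a ≠ 0) (h : vl 2 v a = 0) : Pool.Agent.Q283.LQ.sb v a = sy 2 ζ v a := by
  classical
  have : Fact (Nat.Prime 2) := ⟨Nat.prime_two⟩
  unfold Pool.Agent.Q283.LQ.sb
  by_cases h1 : Pool.Agent.Q283.LQ.Lsq v a
  · rw [if_pos h1]
    exact (sy_lpw hB hv hζ h1).symm
  · rw [if_neg h1]
    exact (z2_one fun h0 => h1 ((sy_zero_iff hB hv hζ ha h).1 h0)).symm

/-! ## the sum of the symbols -/

variable {ζ : F} {t : HeightOneSpectrum (𝓞 F) → F → F → ZMod 2} {s : (F →+* ℝ) → F → F → ZMod 2}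

/-- the sum of the symbols at the small and at the real places -/
noncomputable def TR (t : HeightOneSpectrum (𝓞 F) → F → F → ZMod 2) (s : (F →+* ℝ) → F → F → ZMod 2) (y : ℕ)
    (a b : F) : ZMod 2 :=
  ∑ᶠ v : {v : HeightOneSpectrum (𝓞 F) // Sm y v}, t v.1 a b + ∑ᶠ φ, s φ a b

theorem TR_mul (H : Hb ζ t s) {y : ℕ} (hfin : {v : HeightOneSpectrum (𝓞 F) | Sm y v}.Finite) {a b c : F}
    (ha : a ≠ 0) (hb : b ≠ 0) (hc : c ≠ 0) : TR t s y (a * b) c = TR t s y a c + TR t s y b c := by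
  have : Finite {v : HeightOneSpectrum (𝓞 F) // Sm y v} := hfin.to_subtype
  unfold TR
  have h1 : ∑ᶠ v : {v : HeightOneSpectrum (𝓞 F) // Sm y v}, t v.1 (a * b) c =
      ∑ᶠ v : {v : HeightOneSpectrum (𝓞 F) // Sm y v}, t v.1 a c +
        ∑ᶠ v : {v : HeightOneSpectrum (𝓞 F) // Sm y v}, t v.1 b c := by
    rw [← finsum_add_distrib (Set.toFinite _) (Set.toFinite _)]
    exact finsum_congr fun v => H.mul v.1 a b c ha hb hc
  have h2 : ∑ᶠ φ, s φ (a * b) c = ∑ᶠ φ, s φ a c + ∑ᶠ φ, s φ b c := by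
    rw [← finsum_add_distrib (Set.toFinite _) (Set.toFinite _)]
    exact finsum_congr fun φ => H.rmul φ a b c ha hb hc
  rw [h1, h2]
  ring

theorem TR_sym (H : Hb ζ t s) (y : ℕ) {a c : F} (ha : a ≠ 0) (hc : c ≠ 0) : TR t s y a c = TR t s y c a := by
  unfold TR
  rw [finsum_congr fun v : {v : HeightOneSpectrum (𝓞 F) // Sm y v} => H.sym v.1 a c ha hc,
    finsum_congr fun φ => H.rsym φ a c ha hc]

theorem TR_nr (H : Hb ζ t s) {y : ℕ} {a c : F} (ha : Nr y a) (hc : c ≠ 0) : TR t s y a c = 0 := by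
  unfold TR
  rw [finsum_congr (g := fun _ => (0 : ZMod 2)) fun v : {v : HeightOneSpectrum (𝓞 F) // Sm y v} =>
      H.pow v.1 a c (ha.1.2 v.1 v.2) hc,
    finsum_congr (g := fun _ => (0 : ZMod 2)) fun φ => H.rpos φ a c (ha.2 φ) hc, finsum_zero, finsum_zero, add_zero]

theorem TR_cls (H : Hb ζ t s) {y : ℕ} (hfin : {v : HeightOneSpectrum (𝓞 F) | Sm y v}.Finite) {a b c : F}
    (ha : a ≠ 0) (hb : b ≠ 0) (hc : c ≠ 0) (h : Nr y (a * b)) : TR t s y a c = TR t s y b c := by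
  have h1 := TR_mul H hfin ha hb hc
  rw [TR_nr H h hc] at h1
  linear_combination -h1 - z2_add (TR t s y b c)

/-- the product formula -/
theorem TR_out (H : Hb ζ t s) {y : ℕ} (hfin : {v : HeightOneSpectrum (𝓞 F) | Sm y v}.Finite) {a c : F}
    (ha : a ≠ 0) (hc : c ≠ 0) (Q : Finset (HeightOneSpectrum (𝓞 F))) (hQ : ∀ q ∈ Q, ¬ Sm y q)
    (h : ∀ w, ¬ Sm y w → w ∉ Q → t w a c = 0) : TR t s y a c = ∑ q ∈ Q, t q a c := by
  classical
  have h1 := (H.sum a c ha hc).2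
  have hTT : ∑ᶠ v : {v : HeightOneSpectrum (𝓞 F) // Sm y v}, t v.1 a c = ∑ v ∈ hfin.toFinset, t v a c := by
    have h1 := finsum_set_coe_eq_finsum_mem (f := fun v => t v a c) {v : HeightOneSpectrum (𝓞 F) | Sm y v}
    have h2 := finsum_mem_eq_finite_toFinset_sum (fun v => t v a c) hfin
    exact h1.trans h2
  have hdis : Disjoint hfin.toFinset Q := by
    rw [Finset.disjoint_left]
    intro v hv hvQ
    exact hQ v hvQ (hfin.mem_toFinset.1 hv)
  have h2 : ∑ᶠ w, t w a c = ∑ w ∈ hfin.toFinset ∪ Q, t w a c := by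
    refine finsum_eq_sum_of_support_subset _ ?_
    intro w hw
    rw [Finset.mem_coe, Finset.mem_union]
    by_contra hcon
    push Not at hcon
    exact hw (h w (fun hs => hcon.1 (hfin.mem_toFinset.2 hs)) hcon.2)
  rw [h2, Finset.sum_union hdis] at h1
  unfold TR
  rw [hTT]
  linear_combination h1 - z2_add (∑ q ∈ Q, t q a c)

end

/-- **JOB BSE** -/
theorem bse (hBAS : S_BAS) (hCHEB : S_CHEB) (hBASE : Pool.Agent.Q283.LQ.S_BASE)
    (hLOC : Pool.Agent.Q283.LQ.S_LOC) : S_BSE := by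
  classical
  intro F _ _ ζ hζ t s H
  have : Fact (Nat.Prime 2) := ⟨Nat.prime_two⟩
  obtain ⟨y0, hy0⟩ := hBASE F
  refine ⟨y0, fun y hy => ?_⟩
  obtain ⟨f, u, r, π, g0, B, hf⟩ := hy0 y hy
  obtain ⟨hfin, hloc⟩ := hLOC F y B.two
  have hdp : ∀ v : HeightOneSpectrum (𝓞 F), ¬ Sm y v → ¬ Dp 2 v := fun v hv h =>
    hv ⟨2, Nat.prime_two, B.two, h⟩
  have ue := B.ue
  have re := B.re
  have uo : ∀ l v, ¬ Sm y v → vl 2 v (u l) = 0 := by
    intro l v hv
    by_contra h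
    exact B.uo l v hv ((od_iff v (ue l)).2 h)
  have ind : ∀ c : Fin f → ZMod 2, IsPow 2 (mon u c) → c = 0 := fun c hc =>
    B.ind c ((pow_iff _).2 hc)
  have full : ∀ a : F, a ≠ 0 → (∀ v : HeightOneSpectrum (𝓞 F), ¬ Sm y v → vl 2 v a = 0) →
      ∃ c : Fin f → ZMod 2, IsPow 2 (a * mon u c) := by
    intro a ha h
    obtain ⟨c, hc⟩ := B.full a ha fun v hv ho => (od_iff v ha).1 ho (h v hv)
    exact ⟨c, (pow_iff _).1 hc⟩
  have π0 : ∀ q, ¬ Sm y q → π q ≠ 0 := fun q hq => (B.po q hq).1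
  have π1 : ∀ q, ¬ Sm y q → vl 2 q (π q) = 1 := fun q hq =>
    z2_one ((od_iff q (π0 q hq)).1 (((B.po q hq).2 q hq).2 rfl))
  have π2 : ∀ q, ¬ Sm y q → ∀ v, ¬ Sm y v → v ≠ q → vl 2 v (π q) = 0 := by
    intro q hq v hv hne
    by_contra h
    exact hne (((B.po q hq).2 v hv).1 ((od_iff v (π0 q hq)).2 h))
  have cls : ∀ b : F, b ≠ 0 → ∃! x : (Fin f → ZMod 2) × (Fin f → ZMod 2), Nr y (b * mon r x.1 * mon u x.2) := by
    intro b hb
    obtain ⟨x, hx, hx'⟩ := B.cls b hb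
    exact ⟨x, (nn_iff y _).1 hx, fun z hz => hx' z ((nn_iff y _).2 hz)⟩
  have hsy : ∀ q, ¬ Sm y q → (fun l => Pool.Agent.Q283.LQ.sb q (u l)) = fun l => sy 2 ζ q (u l) := by
    intro q hq
    funext l
    exact sb_eq hBAS hζ (hdp q hq) (ue l) (uo l q hq)
  have pc : ∀ q, ¬ Sm y q → Nr y (π q * mon r (fun l => sy 2 ζ q (u l))) := by
    intro q hq
    have h := B.pc q hq
    rw [hsy q hq] at h
    exact (nn_iff y _).1 h
  have mu : ∀ c : Fin f → ZMod 2, mon u c ≠ 0 := mon_ne u ue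
  have mr : ∀ c : Fin f → ZMod 2, mon r c ≠ 0 := mon_ne r re
  have vlu : ∀ (c : Fin f → ZMod 2) (v : HeightOneSpectrum (𝓞 F)), ¬ Sm y v → vl 2 v (mon u c) = 0 := by
    intro c v hv
    rw [vl_mon hBAS v u ue c]
    exact Finset.sum_eq_zero fun l _ => by rw [uo l v hv, mul_zero]
  -- the symbols
  have Tuu : ∀ c c' : Fin f → ZMod 2, TR t s y (mon u c) (mon u c') = 0 := by
    intro c c'
    rw [TR_out H hfin (mu c) (mu c') ∅ (by simp), Finset.sum_empty]
    intro w hw _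
    rw [H.unr w (hdp w hw) (mon u c') (mu c') (vlu c' w hw) (mon u c) (mu c), vlu c w hw, zero_mul]
  have TPu : ∀ (q : HeightOneSpectrum (𝓞 F)), ¬ Sm y q → ∀ c : Fin f → ZMod 2,
      TR t s y (π q) (mon u c) = dot (fun l => sy 2 ζ q (u l)) c := by
    intro q hq c
    have h1 : ∀ w, ¬ Sm y w → t w (π q) (mon u c) = vl 2 w (π q) * sy 2 ζ w (mon u c) := fun w hw =>
      H.unr w (hdp w hw) (mon u c) (mu c) (vlu c w hw) (π q) (π0 q hq)
    rw [TR_out H hfin (π0 q hq) (mu c) {q} (by simpa using hq), Finset.sum_singleton, h1 q hq, π1 q hq, one_mul,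
      sy_mon hBAS hζ (hdp q hq) u ue (fun l => uo l q hq) c]
    · unfold dot
      exact Finset.sum_congr rfl fun l _ => mul_comm _ _
    · intro w hw hne
      rw [Finset.mem_singleton] at hne
      rw [h1 w hw, π2 q hq w hw hne, zero_mul]
  have TPP : ∀ q q' : HeightOneSpectrum (𝓞 F), ¬ Sm y q → ¬ Sm y q' → q ≠ q' →
      TR t s y (π q) (π q') = sy 2 ζ q' (π q) + sy 2 ζ q (π q') := by
    intro q q' hq hq' hne
    rw [TR_out H hfin (π0 q hq) (π0 q' hq') {q, q'}, Finset.sum_pair hne,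
      H.unr q (hdp q hq) (π q') (π0 q' hq') (π2 q' hq' q hq hne) (π q) (π0 q hq), π1 q hq, one_mul,
      H.sym q' (π q) (π q') (π0 q hq) (π0 q' hq'),
      H.unr q' (hdp q' hq') (π q) (π0 q hq) (π2 q hq q' hq' hne.symm) (π q') (π0 q' hq'), π1 q' hq', one_mul, add_comm]
    · intro v hv
      rw [Finset.mem_insert, Finset.mem_singleton] at hv
      rcases hv with rfl | rfl
      · exact hq
      · exact hq'
    · intro w hw hn
      rw [Finset.mem_insert, Finset.mem_singleton, not_or] at hn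
      rw [H.unr w (hdp w hw) (π q') (π0 q' hq') (π2 q' hq' w hw hn.2) (π q) (π0 q hq), π2 q hq w hw hn.1, zero_mul]
  have exq : ∀ φ : Fin f → ZMod 2, ∃ q, ¬ Sm y q ∧ (fun l => sy 2 ζ q (u l)) = φ := by
    intro φ
    obtain ⟨q, hq, hqs⟩ := exists_q hCHEB hζ u ue ind φ hfin
    exact ⟨q, hq, funext hqs⟩
  have Tru : ∀ φ c : Fin f → ZMod 2, TR t s y (mon r φ) (mon u c) = dot φ c := by
    intro φ c
    obtain ⟨q, hq, hs⟩ := exq φ
    have h1 := pc q hq
    have h2 := TPu q hq c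
    rw [hs] at h1 h2
    rw [← h2]
    refine TR_cls H hfin (mr φ) (π0 q hq) (mu c) ?_
    rwa [mul_comm]
  refine ⟨f, u, r, π, fun φ φ' => TR t s y (mon r φ) (mon r φ'), ⟨B.two, ue, re, uo, ind, full, ?_, cls, pc, ?_⟩,
    ?_, ?_, hfin⟩
  · exact fun q hq => ⟨π0 q hq, fun v hv => ⟨fun h => by rw [h]; exact π1 q hq, fun h => π2 q hq v hv h⟩⟩
  · intro q q' hq hq' hne
    rw [← TPP q q' hq hq' hne]
    have h1 := TR_cls H hfin (π0 q hq) (mr _) (π0 q' hq') (pc q hq)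
    rw [h1, TR_sym H y (mr _) (π0 q' hq'), TR_cls H hfin (π0 q' hq') (mr _) (mr _) (pc q' hq'),
      TR_sym H y (mr _) (mr _)]
  · intro a b x x' ha hb hx hx'
    have e0 : mon r x.1 * mon u x.2 ≠ 0 := mul_ne_zero (mr _) (mu _)
    have e0' : mon r x'.1 * mon u x'.2 ≠ 0 := mul_ne_zero (mr _) (mu _)
    rw [mul_assoc] at hx hx'
    show TR t s y a b = dot x.1 x'.2 + dot x'.1 x.2 + TR t s y (mon r x.1) (mon r x'.1)
    rw [TR_cls H hfin ha e0 hb hx, TR_sym H y e0 hb, TR_cls H hfin hb e0' e0 hx',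
      TR_mul H hfin (mr _) (mu _) e0, TR_sym H y (mr x'.1) e0, TR_sym H y (mu x'.2) e0,
      TR_mul H hfin (mr _) (mu _) (mr _), TR_mul H hfin (mr _) (mu _) (mu _), Tuu, Tru,
      TR_sym H y (mu x.2) (mr x'.1), Tru]
    ring
  · -- the number of the basis elements
    apply le_antisymm _ hf
    set M : (Fin f → ZMod 2) × (Fin f → ZMod 2) → F := fun x => mon r x.1 * mon u x.2 with hM
    have M0 : ∀ x, M x ≠ 0 := fun x => mul_ne_zero (mr _) (mu _)
    have hnr : ∀ x : (Fin f → ZMod 2) × (Fin f → ZMod 2), Nr y (M x * mon r x.1 * mon u x.2) := by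
      intro x
      have h1 : M x * mon r x.1 * mon u x.2 = (M x) ^ 2 := by
        rw [mul_assoc, sq]
      rw [h1]
      refine ⟨Nn_pow hBAS y (M0 x), fun φ => ?_⟩
      rw [map_pow]
      have h2 : φ (M x) ≠ 0 := (map_ne_zero φ).2 (M0 x)
      positivity
    have hinj : ∀ x x', Nr y (M x * M x') → x = x' := by
      intro x x' h
      refine (cls (M x) (M0 x)).unique (hnr x) ?_
      rwa [mul_assoc]
    have hMinj : Function.Injective M := by
      intro x x' h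
      refine hinj x x' ?_
      rw [← h]
      have h1 := hnr x
      rwa [mul_assoc] at h1
    have h1 := hloc (Finset.univ.image M) ?_ ?_
    · rw [Finset.card_image_of_injective _ hMinj, Finset.card_univ, Fintype.card_prod, Fintype.card_fun,
        ZMod.card, Fintype.card_fin, ← pow_add] at h1
      have h2 := (Nat.pow_le_pow_iff_right (by norm_num)).1 h1
      have h3 := InfinitePlace.card_add_two_mul_card_eq_rank F
      omega
    · intro b hb
      obtain ⟨x, _, rfl⟩ := Finset.mem_image.1 hb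
      exact M0 x
    · intro b hb b' hb' hne h
      obtain ⟨x, _, rfl⟩ := Finset.mem_image.1 hb
      obtain ⟨x', _, rfl⟩ := Finset.mem_image.1 hb'
      exact hne (congrArg M (hinj x x' ((nn_iff y _).1 h)))

end Pool.Agent.Q121.FG
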