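import Pool.Agent.Q283.FG.Stm3
import Pool.Agent.Q193.EN.QCX

/-!
# Project FG of helper283, job GDR: the local conditions at the good places of odd order, with the signs

Adapted from `Pool.Agent.Q38.FT.gdr` (helper38).
-/

set_option autoImplicit false

namespace Pool.Agent.Q121.FG.GDR

open NumberField IsDedekindDomain Pool.Agent.Q7.LK Pool.Agent.Q285.LK Pool.Agent.Y682
open Pool.Agent.Q283.FT (U2 om crv Rt twi df Cov HasN2 AX Gd LocP Dcl)
open Pool.Agent.Q283.FG
open Pool.Agent.Q193.EN (lg lg_mul lg_pow lg_neg lg_coe vl_iff sq_of_lt)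

section

variable {F : Type} [Field F] [NumberField F] {v : HeightOneSpectrum (𝓞 F)}

/-- a number near its difference with a small one -/
theorem pert (hv : ¬ Dp 2 v) {X Y d : v.adicCompletion F} (hd : Y - X = d) (h : vv v X < vv v d) :
    ∃ c : v.adicCompletion F, c ≠ 0 ∧ Y ≠ 0 ∧ Y = d * c ^ 2 := by
  have hd0 : d ≠ 0 := by
    rintro rfl
    rw [map_zero] at h
    exact absurd h (not_lt.2 zero_le)
  obtain ⟨c, hc⟩ := sq_of_lt hv hd0 h
  have hY : Y = X + d := by rw [← hd]; ring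
  have hY0 : Y ≠ 0 := by
    have h1 : vv v Y = vv v d := by
      rw [hY]
      exact Valuation.map_add_eq_of_lt_right _ h
    intro h2
    rw [h2, map_zero] at h1
    exact hd0 ((Valuation.zero_iff _).1 h1.symm)
  rw [add_comm, ← hY] at hc
  refine ⟨c, ?_, hY0, hc⟩
  rintro rfl
  exact hY0 (by rw [hc]; ring)

/-- the analysis of the valuations -/
theorem core (hv : ¬ Dp 2 v) {α β δ z0 z1 z2 w e0 e1 e2 : v.adicCompletion F}
    (hα : α ≠ 0) (hβ : β ≠ 0) (hδ : δ ≠ 0) (nz : (z0 ≠ 0 ∨ z1 ≠ 0 ∨ z2 ≠ 0) ∨ w ≠ 0)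
    (h1 : α * z0 ^ 2 + δ * e0 * w ^ 2 = β * z1 ^ 2 + δ * e1 * w ^ 2)
    (h2 : α * z0 ^ 2 + δ * e0 * w ^ 2 = α * β * z2 ^ 2 + δ * e2 * w ^ 2)
    (hodd : ¬ ∃ m, lg v δ = 2 * m) (u0 : vv v (e1 - e2) = 1) (u1 : vv v (e0 - e2) = 1)
    (u2 : vv v (e0 - e1) = 1) :
    ((∃ x, α = x ^ 2) ∧ ∃ x, β = x ^ 2) ∨
    ((∃ x, α * ((δ * (e0 - e2)) * (δ * (e0 - e1))) = x ^ 2) ∧ ∃ x, β * (δ * (e0 - e1)) = x ^ 2) ∨
    ((∃ x, α * (-(δ * (e0 - e1))) = x ^ 2) ∧ ∃ x, β * (-((δ * (e1 - e2)) * (δ * (e0 - e1)))) = x ^ 2) ∨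
    ((∃ x, α * (-(δ * (e0 - e2))) = x ^ 2) ∧ ∃ x, β * (-(δ * (e1 - e2))) = x ^ 2) := by
  have sq0 : ∀ {x : v.adicCompletion F}, x ≠ 0 → x ^ 2 ≠ 0 := fun h => pow_ne_zero 2 h
  by_cases hw : w = 0
  · left
    subst hw
    have h1' : α * z0 ^ 2 = β * z1 ^ 2 := by linear_combination h1
    have h2' : z0 ^ 2 = β * z2 ^ 2 := mul_left_cancel₀ hα (by linear_combination h2)
    have hz0 : z0 ≠ 0 := by
      rintro rfl
      have e1 : z1 = 0 := by
        have : β * z1 ^ 2 = 0 := by rw [← h1']; ring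
        exact (pow_eq_zero_iff two_ne_zero).1 ((mul_eq_zero.1 this).resolve_left hβ)
      have e2 : z2 = 0 := by
        have : β * z2 ^ 2 = 0 := by rw [← h2']; ring
        exact (pow_eq_zero_iff two_ne_zero).1 ((mul_eq_zero.1 this).resolve_left hβ)
      rcases nz with (h | h | h) | h
      · exact h rfl
      · exact h e1
      · exact h e2
      · exact h rfl
    have hz2 : z2 ≠ 0 := by
      rintro rfl
      exact hz0 ((pow_eq_zero_iff two_ne_zero).1 (by rw [h2']; ring))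
    refine ⟨⟨z1 / z2, ?_⟩, ⟨z0 / z2, ?_⟩⟩
    · rw [div_pow, eq_div_iff (sq0 hz2)]
      apply mul_left_cancel₀ hβ
      linear_combination h1' - α * h2'
    · rw [div_pow, eq_div_iff (sq0 hz2)]
      exact h2'.symm
  · have hT : vv v (δ * w ^ 2) ≠ 0 := (Valuation.ne_zero_iff _).2 (mul_ne_zero hδ (sq0 hw))
    have dd : ∀ {x y : v.adicCompletion F}, vv v (x - y) = 1 →
        vv v (δ * (x - y) * w ^ 2) = vv v (δ * w ^ 2) := fun {x y} h => by
      rw [show δ * (x - y) * w ^ 2 = δ * w ^ 2 * (x - y) by ring, map_mul, h, mul_one]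
    have D2 := dd u2
    have D1 := dd u1
    have D0 := dd u0
    have ng : ∀ x : v.adicCompletion F, vv v (-x) = vv v x := fun x => Valuation.map_neg _ _
    have k10 : β * z1 ^ 2 - α * z0 ^ 2 = δ * (e0 - e1) * w ^ 2 := by linear_combination -h1
    have k20 : α * β * z2 ^ 2 - α * z0 ^ 2 = δ * (e0 - e2) * w ^ 2 := by linear_combination -h2
    have k01 : α * z0 ^ 2 - β * z1 ^ 2 = -(δ * (e0 - e1) * w ^ 2) := by linear_combination h1
    have k02 : α * z0 ^ 2 - α * β * z2 ^ 2 = -(δ * (e0 - e2) * w ^ 2) := by linear_combination h2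
    have k21 : α * β * z2 ^ 2 - β * z1 ^ 2 = δ * (e1 - e2) * w ^ 2 := by linear_combination h1 - h2
    have k12 : β * z1 ^ 2 - α * β * z2 ^ 2 = -(δ * (e1 - e2) * w ^ 2) := by linear_combination h2 - h1
    have zz : ∀ {x y : v.adicCompletion F}, x * y ^ 2 ≠ 0 → y ≠ 0 := fun {x y} h h' => h (by rw [h']; ring)
    rcases lt_trichotomy (vv v (α * z0 ^ 2)) (vv v (δ * w ^ 2)) with hA | hA | hA
    · right; left
      obtain ⟨c, hc, hY, hc2⟩ := pert hv k10 (by rw [D2]; exact hA)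
      obtain ⟨d, hd, hZ, hd2⟩ := pert hv k20 (by rw [D1]; exact hA)
      have hz1 := zz hY
      have hz2 := zz hZ
      refine ⟨⟨α * β * z1 * z2 / (w ^ 2 * c * d), ?_⟩, ⟨δ * (e0 - e1) * w * c / z1, ?_⟩⟩
      · rw [div_pow, eq_div_iff (sq0 (mul_ne_zero (mul_ne_zero (sq0 hw) hc) hd))]
        linear_combination (-α) * (δ * (e0 - e2) * w ^ 2 * d ^ 2) * hc2 - α * (β * z1 ^ 2) * hd2
      · rw [div_pow, eq_div_iff (sq0 hz1)]
        linear_combination (δ * (e0 - e1)) * hc2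
    · have hB : vv v (β * z1 ^ 2) ≤ vv v (δ * w ^ 2) := by
        rw [show β * z1 ^ 2 = α * z0 ^ 2 + δ * (e0 - e1) * w ^ 2 by linear_combination -h1]
        refine (Valuation.map_add _ _ _).trans (max_le hA.le D2.le)
      have hC : vv v (α * β * z2 ^ 2) ≤ vv v (δ * w ^ 2) := by
        rw [show α * β * z2 ^ 2 = α * z0 ^ 2 + δ * (e0 - e2) * w ^ 2 by linear_combination -h2]
        refine (Valuation.map_add _ _ _).trans (max_le hA.le D1.le)
      right; right
      rcases lt_or_eq_of_le hB with hB | hB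
      · left
        obtain ⟨c, hc, hY, hc2⟩ := pert hv k01 (by rw [ng, D2]; exact hB)
        obtain ⟨d, hd, hZ, hd2⟩ := pert hv k21 (by rw [D0]; exact hB)
        have hz0 := zz hY
        have hz2 := zz hZ
        refine ⟨⟨(δ * (e0 - e1)) * w * c / z0, ?_⟩, ⟨(α * β) * z0 * z2 / (w ^ 2 * c * d), ?_⟩⟩
        · rw [div_pow, eq_div_iff (sq0 hz0)]
          linear_combination (-(δ * (e0 - e1))) * hc2
        · rw [div_pow, eq_div_iff (sq0 (mul_ne_zero (mul_ne_zero (sq0 hw) hc) hd))]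
          linear_combination (-β) * (δ * (e1 - e2) * w ^ 2 * d ^ 2) * hc2 - β * (α * z0 ^ 2) * hd2
      · rcases lt_or_eq_of_le hC with hC | hC
        · right
          obtain ⟨c, hc, hY, hc2⟩ := pert hv k02 (by rw [ng, D1]; exact hC)
          obtain ⟨d, hd, hZ, hd2⟩ := pert hv k12 (by rw [ng, D0]; exact hC)
          have hz0 := zz hY
          have hz1 := zz hZ
          refine ⟨⟨(δ * (e0 - e2)) * w * c / z0, ?_⟩, ⟨(δ * (e1 - e2)) * w * d / z1, ?_⟩⟩
          · rw [div_pow, eq_div_iff (sq0 hz0)]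
            linear_combination (-(δ * (e0 - e2))) * hc2
          · rw [div_pow, eq_div_iff (sq0 hz1)]
            linear_combination (-(δ * (e1 - e2))) * hd2
        · exfalso
          apply hodd
          have nzv : ∀ {x : v.adicCompletion F}, vv v x = vv v (δ * w ^ 2) → x ≠ 0 := fun {x} h h' => by
            rw [h', map_zero] at h
            exact hT h.symm
          have n0 := nzv hA
          have n1 := nzv hB
          have n2 := nzv hC
          have req : ∀ {x : v.adicCompletion F}, vv v x = vv v (δ * w ^ 2) → lg v x = lg v (δ * w ^ 2) := fun {x} h => by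
            unfold lg
            rw [h]
          have hp : (α * z0 ^ 2) * (β * z1 ^ 2) * (α * β * z2 ^ 2) = (α * β * z0 * z1 * z2) ^ 2 := by ring
          have hl := congrArg (lg v) hp
          rw [lg_mul v (mul_ne_zero n0 n1) n2, lg_mul v n0 n1, req hA, req hB, req hC, lg_pow,
            lg_mul v hδ (sq0 hw), lg_pow] at hl
          push_cast at hl
          exact ⟨lg v (α * β * z0 * z1 * z2) - 3 * lg v w - lg v δ, by linarith⟩
    · left
      have n0 : α * z0 ^ 2 ≠ 0 := by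
        intro h
        rw [h, map_zero] at hA
        exact absurd hA (not_lt.2 zero_le)
      have g1 : vv v (δ * (e0 - e1) * w ^ 2) < vv v (α * z0 ^ 2) := by rw [D2]; exact hA
      have g2 : vv v (δ * (e0 - e2) * w ^ 2) < vv v (α * z0 ^ 2) := by rw [D1]; exact hA
      obtain ⟨c, hc⟩ := sq_of_lt hv n0 g1
      obtain ⟨d, hd⟩ := sq_of_lt hv n0 g2
      have hc2 : β * z1 ^ 2 = α * z0 ^ 2 * c ^ 2 := by rw [← hc]; linear_combination -h1
      have hd2 : α * β * z2 ^ 2 = α * z0 ^ 2 * d ^ 2 := by rw [← hd]; linear_combination -h2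
      have m1 : vv v (β * z1 ^ 2) = vv v (α * z0 ^ 2) := by
        rw [show β * z1 ^ 2 = α * z0 ^ 2 + δ * (e0 - e1) * w ^ 2 by linear_combination -h1]
        rw [add_comm]
        exact Valuation.map_add_eq_of_lt_right _ g1
      have m2 : vv v (α * β * z2 ^ 2) = vv v (α * z0 ^ 2) := by
        rw [show α * β * z2 ^ 2 = α * z0 ^ 2 + δ * (e0 - e2) * w ^ 2 by linear_combination -h2]
        rw [add_comm]
        exact Valuation.map_add_eq_of_lt_right _ g2
      have n1 : β * z1 ^ 2 ≠ 0 := fun h => by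
        rw [h, map_zero] at m1
        exact n0 ((Valuation.zero_iff _).1 m1.symm)
      have n2 : α * β * z2 ^ 2 ≠ 0 := fun h => by
        rw [h, map_zero] at m2
        exact n0 ((Valuation.zero_iff _).1 m2.symm)
      have hz2 := zz n2
      have hz0 := zz n0
      have hc0 : c ≠ 0 := by
        rintro rfl
        exact n1 (by rw [hc2]; ring)
      have hb : β * z2 ^ 2 = z0 ^ 2 * d ^ 2 := mul_left_cancel₀ hα (by linear_combination hd2)
      refine ⟨⟨d * z1 / (z2 * c), ?_⟩, ⟨z0 * d / z2, ?_⟩⟩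
      · rw [div_pow, eq_div_iff (sq0 (mul_ne_zero hz2 hc0))]
        apply mul_left_cancel₀ (sq0 hz0)
        linear_combination (-z2 ^ 2) * hc2 + z1 ^ 2 * hb
      · rw [div_pow, eq_div_iff (sq0 hz2)]
        linear_combination hb

end

theorem _root_.Pool.Agent.Q121.FG.gdr (hLCP : S_LCP) (hCPL : S_CPL) : S_GDR := by
  intro F _ _ v e he hg D a b hD hvD
  have : Fact (Nat.Prime 2) := ⟨Nat.prime_two⟩
  have he' : Rt (twi D e) := by
    constructor
    · intro j k h
      exact he.inj (mul_left_cancel₀ hD h)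
    · have := he.sum
      unfold twi
      linear_combination D * this
  obtain ⟨l1, l2, l3, l4⟩ := hLCP F (twi D e) he' v
  refine ⟨fun hA => ?_, fun hT => l4 a b hT⟩
  obtain ⟨ha, hb, z, w, hz, q1, q2⟩ := hA
  have m0 : ∀ {x : F}, x ≠ 0 → algebraMap F (v.adicCompletion F) x ≠ 0 := fun h =>
    (map_ne_zero (algebraMap F (v.adicCompletion F))).2 h
  have hz' : (z 0 ≠ 0 ∨ z 1 ≠ 0 ∨ z 2 ≠ 0) ∨ w ≠ 0 := by
    rcases hz with h | h
    · left
      by_contra hc
      push Not at hc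
      apply h
      funext j
      fin_cases j
      · exact hc.1
      · exact hc.2.1
      · exact hc.2.2
    · exact Or.inr h
  have un : ∀ x y : F, v.valuation F (x - y) = 1 →
      vv v (algebraMap F (v.adicCompletion F) x - algebraMap F (v.adicCompletion F) y) = 1 := fun x y h => by
    rw [← map_sub, vv_coe, h]
  have d0 : df e 0 = e 1 - e 2 := by simp [df]
  have d1 : df e 1 = e 0 - e 2 := by simp [df]
  have d2 : df e 2 = e 0 - e 1 := by simp [df]
  have g0 : df (twi D e) 0 = D * (e 1 - e 2) := by simp [df, twi, mul_sub]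
  have g1 : df (twi D e) 1 = D * (e 0 - e 2) := by simp [df, twi, mul_sub]
  have g2 : df (twi D e) 2 = D * (e 0 - e 1) := by simp [df, twi, mul_sub]
  have hsub : ∀ j k, j ≠ k → e j - e k ≠ 0 := fun j k h => sub_ne_zero.2 fun h' => h (he.inj h')
  have s0 : e 1 - e 2 ≠ 0 := hsub 1 2 (by decide)
  have s1 : e 0 - e 2 ≠ 0 := hsub 0 2 (by decide)
  have s2 : e 0 - e 1 ≠ 0 := hsub 0 1 (by decide)
  have key := core (v := v) hg.odd (α := algebraMap F _ a) (β := algebraMap F _ b)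
    (δ := algebraMap F _ D) (z0 := z 0) (z1 := z 1) (z2 := z 2) (w := w) (e0 := algebraMap F _ (e 0))
    (e1 := algebraMap F _ (e 1)) (e2 := algebraMap F _ (e 2)) (m0 ha) (m0 hb) (m0 hD) hz'
    (by simpa [twi] using q1) (by simpa [twi] using q2)
    (fun ⟨m, hm⟩ => hvD ((vl_iff D).2 ⟨m, by rw [← lg_coe]; exact hm⟩))
    (un _ _ (by rw [← d0]; exact hg.unit 0)) (un _ _ (by rw [← d1]; exact hg.unit 1))
    (un _ _ (by rw [← d2]; exact hg.unit 2))
  have fin : ∀ m : F, m ≠ 0 → (∃ x, algebraMap F (v.adicCompletion F) m = x ^ 2) → Lpw 2 v m := fun m hm hx => by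
    refine (hCPL 2 F v m).2 ⟨hm, ?_⟩
    obtain ⟨x, hx⟩ := hx
    exact ⟨x, by rw [cpl_coe]; exact hx⟩
  have t0 : tc (twi D e) 0 = (D * (e 0 - e 2) * (D * (e 0 - e 1)), D * (e 0 - e 1)) := by
    rw [tc, if_pos rfl, g1, g2]
  have t1 : tc (twi D e) 1 = (-(D * (e 0 - e 1)), -(D * (e 1 - e 2) * (D * (e 0 - e 1)))) := by
    rw [tc, if_neg (by decide), if_pos rfl, g0, g2]
  have t2 : tc (twi D e) 2 = (-(D * (e 0 - e 2)), -(D * (e 1 - e 2))) := by
    rw [tc, if_neg (by decide), if_neg (by decide), g0, g1]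
  unfold TX
  rcases key with ⟨k1, k2⟩ | ⟨k1, k2⟩ | ⟨k1, k2⟩ | ⟨k1, k2⟩
  · exact Or.inl ⟨fin a ha k1, fin b hb k2⟩
  · refine Or.inr ⟨0, ?_⟩
    rw [t0]
    refine ⟨fin _ ?_ ?_, fin _ ?_ ?_⟩
    · exact mul_ne_zero ha (mul_ne_zero (mul_ne_zero hD s1) (mul_ne_zero hD s2))
    · simpa only [map_mul, map_sub, map_neg] using k1
    · exact mul_ne_zero hb (mul_ne_zero hD s2)
    · simpa only [map_mul, map_sub, map_neg] using k2
  · refine Or.inr ⟨1, ?_⟩
    rw [t1]
    refine ⟨fin _ ?_ ?_, fin _ ?_ ?_⟩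
    · exact mul_ne_zero ha (neg_ne_zero.2 (mul_ne_zero hD s2))
    · simpa only [map_mul, map_sub, map_neg] using k1
    · exact mul_ne_zero hb (neg_ne_zero.2 (mul_ne_zero (mul_ne_zero hD s0) (mul_ne_zero hD s2)))
    · simpa only [map_mul, map_sub, map_neg] using k2
  · refine Or.inr ⟨2, ?_⟩
    rw [t2]
    refine ⟨fin _ ?_ ?_, fin _ ?_ ?_⟩
    · exact mul_ne_zero ha (neg_ne_zero.2 (mul_ne_zero hD s1))
    · simpa only [map_mul, map_sub, map_neg] using k1
    · exact mul_ne_zero hb (neg_ne_zero.2 (mul_ne_zero hD s0))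
    · simpa only [map_mul, map_sub, map_neg] using k2

end Pool.Agent.Q121.FG.GDR
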